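import Pool.Agent.H72.BF.Targets

/-!
# PAR: choice of the parameters
-/

open Polynomial Finset

namespace Pool.Agent.H59.BF.PAR

open Pool.Agent.H72.BF Filter Topology

theorem exists_kappa (K : ℝ) (n g : ℕ) (hK : 1 ≤ K) : ∃ κ : ℕ, 1 ≤ κ ∧ g ≤ κ ∧ 3 * K ≤ κ ∧
    3 * K * (n + 5 + Real.log κ) ≤ κ := by
  have h1 : ∀ᶠ x : ℝ in atTop, ‖Real.log x‖ ≤ (1 / (6 * K)) * ‖id x‖ :=
    Real.isLittleO_log_id_atTop.bound (by positivity)
  have h2 : ∀ᶠ x : ℝ in atTop, 6 * K * (n + 5) ≤ x := eventually_ge_atTop _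
  have h3 : ∀ᶠ k : ℕ in atTop, ‖Real.log (k : ℝ)‖ ≤ (1 / (6 * K)) * ‖id (k : ℝ)‖ ∧
      6 * K * (n + 5) ≤ (k : ℝ) :=
    tendsto_natCast_atTop_atTop.eventually (h1.and h2)
  obtain ⟨κ, ⟨h4, h5⟩, h6⟩ := (h3.and (eventually_ge_atTop (g + 1))).exists
  have hκ0 : (0 : ℝ) ≤ κ := Nat.cast_nonneg _
  have h7 : Real.log κ ≤ (1 / (6 * K)) * κ := by
    refine (le_abs_self _).trans ?_
    have := h4
    rwa [Real.norm_eq_abs, id, Real.norm_of_nonneg hκ0] at this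
  have h8 : 3 * K * Real.log κ ≤ κ / 2 := by
    calc 3 * K * Real.log κ ≤ 3 * K * ((1 / (6 * K)) * κ) :=
          mul_le_mul_of_nonneg_left h7 (by positivity)
      _ = κ / 2 := by field_simp; ring
  have hn : (0 : ℝ) ≤ n := Nat.cast_nonneg _
  refine ⟨κ, by omega, by omega, ?_, ?_⟩
  · nlinarith
  · nlinarith

theorem exists_w (C : ℝ) (k : ℕ) (hC : 0 < C) : ∃ w : ℕ, C * ((w : ℝ) + 1) ^ k ≤ 2 ^ w := by
  have h1 := tendsto_pow_const_div_const_pow_of_one_lt k (one_lt_two : (1 : ℝ) < 2)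
  have h2 : ∀ᶠ n : ℕ in atTop, (n : ℝ) ^ k / 2 ^ n < 1 / (2 * C) :=
    h1.eventually (gt_mem_nhds (by positivity))
  obtain ⟨m, h3, h4⟩ := (h2.and (eventually_ge_atTop 1)).exists
  obtain ⟨w, rfl⟩ : ∃ w, m = w + 1 := ⟨m - 1, by omega⟩
  refine ⟨w, ?_⟩
  rw [div_lt_div_iff₀ (by positivity) (by positivity)] at h3
  push_cast at h3
  rw [pow_succ] at h3
  nlinarith

theorem par : T_PAR := by
  intro K n D g hK hD hg
  obtain ⟨κ, hκ1, hκg, hκK, hκ⟩ := exists_kappa K n g hK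
  have hκR : (1 : ℝ) ≤ κ := by exact_mod_cast hκ1
  have hDR : (1 : ℝ) ≤ D := by exact_mod_cast hD
  have hnR : (0 : ℝ) ≤ n := Nat.cast_nonneg _
  obtain ⟨A, hA⟩ : ∃ A : ℝ, A = κ * (n + 3) + 1 := ⟨_, rfl⟩
  obtain ⟨Bc, hBc⟩ : ∃ B : ℝ, B = 2 * κ * (n + 3) + 3 := ⟨_, rfl⟩
  have hA0 : 0 < A := by rw [hA]; positivity
  have hB0 : 0 < Bc := by rw [hBc]; positivity
  obtain ⟨w, hw⟩ := exists_w (6 * K * D * A ^ (n + 1) * Bc) (n + 1 + 2) (by positivity)
  obtain ⟨J, hJ⟩ : ∃ J : ℕ, J = (n + 2) * w := ⟨_, rfl⟩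
  obtain ⟨σ, hσ⟩ : ∃ σ : ℕ, σ = κ * (J + 1) * (w + 2) := ⟨_, rfl⟩
  obtain ⟨Q, hQ⟩ : ∃ Q : ℕ, Q = κ * (J + 1) + 1 := ⟨_, rfl⟩
  have hσ1 : 1 ≤ σ := by
    rw [hσ]
    have : 0 < κ * (J + 1) * (w + 2) := by positivity
    omega
  have hQ1 : 1 ≤ Q := by omega
  obtain ⟨L0, hL0⟩ : ∃ L0 : ℕ, L0 + 1 = 2 * D * σ * Q ^ (n + 1) := by
    have : 0 < 2 * D * σ * Q ^ (n + 1) := by positivity
    exact ⟨2 * D * σ * Q ^ (n + 1) - 1, by omega⟩
  have hσR : (1 : ℝ) ≤ σ := by exact_mod_cast hσ1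
  have hwR : (0 : ℝ) ≤ w := Nat.cast_nonneg _
  have hJR : (J : ℝ) = (n + 2) * w := by rw [hJ]; push_cast; ring
  have hσR' : (σ : ℝ) = κ * (J + 1) * (w + 2) := by rw [hσ]; push_cast; ring
  have hQR : (Q : ℝ) = κ * (J + 1) + 1 := by rw [hQ]; push_cast; ring
  have hQ0 : (0 : ℝ) < Q := by exact_mod_cast hQ1
  -- polynomial bounds
  have hJ1 : (J : ℝ) + 1 ≤ (n + 3) * (w + 1) := by rw [hJR]; linarith
  have hQA : (Q : ℝ) ≤ A * (w + 1) := by
    rw [hQR, hA]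
    have := mul_le_mul_of_nonneg_left hJ1 (by linarith : (0 : ℝ) ≤ κ)
    linarith
  have hσB : (σ : ℝ) + 3 ≤ Bc * (w + 1) ^ 2 := by
    rw [hσR', hBc]
    have h1 := mul_le_mul_of_nonneg_left hJ1 (by linarith : (0 : ℝ) ≤ κ)
    have h2 := mul_le_mul h1 (by linarith : (w : ℝ) + 2 ≤ 2 * (w + 1)) (by linarith)
      (by positivity)
    have h3 : (1 : ℝ) ≤ ((w : ℝ) + 1) ^ 2 := one_le_pow₀ (by linarith)
    linarith
  have hmain : 6 * K * D * (Q : ℝ) ^ (n + 1) * (σ + 3) ≤ 2 ^ w := by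
    have h1 : (Q : ℝ) ^ (n + 1) ≤ (A * (w + 1)) ^ (n + 1) := pow_le_pow_left₀ hQ0.le hQA _
    have h2 : (Q : ℝ) ^ (n + 1) * (σ + 3) ≤ (A * (w + 1)) ^ (n + 1) * (Bc * (w + 1) ^ 2) :=
      mul_le_mul h1 hσB (by linarith) (by positivity)
    calc 6 * K * D * (Q : ℝ) ^ (n + 1) * (σ + 3) = 6 * K * D * ((Q : ℝ) ^ (n + 1) * (σ + 3)) := by
          ring
      _ ≤ 6 * K * D * ((A * (w + 1)) ^ (n + 1) * (Bc * (w + 1) ^ 2)) :=
          mul_le_mul_of_nonneg_left h2 (by positivity)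
      _ = 6 * K * D * A ^ (n + 1) * Bc * ((w : ℝ) + 1) ^ (n + 1 + 2) := by
          rw [mul_pow, pow_add ((w : ℝ) + 1) (n + 1) 2]
          ring
      _ ≤ 2 ^ w := hw
  have hpow0 : (0 : ℝ) < 2 ^ w := by positivity
  refine ⟨2 ^ w, κ * 2 ^ w, L0, σ, J, Nat.one_le_two_pow, ?_, hσ1, ?_, ?_, ?_, ?_⟩
  · have : 0 < κ * 2 ^ w := by positivity
    omega
  · -- (1)
    intro i _
    set s : ℝ := ((σ * 2 ^ i : ℕ) : ℝ) with hs
    have hs' : s = σ * 2 ^ i := by rw [hs]; push_cast; ring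
    have h2i : (1 : ℝ) ≤ 2 ^ i := one_le_pow₀ (by norm_num)
    have hsσ : (σ : ℝ) ≤ s := by
      rw [hs']
      exact le_mul_of_one_le_right (by linarith) h2i
    have hs0 : 0 < s := by linarith
    unfold EE
    have hτ : ((κ * 2 ^ w : ℕ) : ℝ) = κ * 2 ^ w := by push_cast; ring
    have hN : ((2 ^ w : ℕ) : ℝ) = 2 ^ w := by push_cast; ring
    have hT : ((κ * 2 ^ w * (J + 1) : ℕ) : ℝ) = κ * 2 ^ w * (J + 1) := by push_cast; ring
    have hL : (L0 : ℝ) + 1 = 2 * D * σ * (Q : ℝ) ^ (n + 1) := by exact_mod_cast hL0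
    rw [hτ, hN, hT, hL]
    have hJ0 : (0 : ℝ) < (J : ℝ) + 1 := by positivity
    -- (a)
    have ha : K * (2 ^ w * s) ≤ κ * 2 ^ w * s / 3 := by
      have : 3 * K * (2 ^ w * s) ≤ κ * (2 ^ w * s) :=
        mul_le_mul_of_nonneg_right hκK (by positivity)
      linarith
    -- (b)
    have hb : K * (κ * 2 ^ w * (J + 1) * (1 + Real.log (κ * 2 ^ w * (J + 1)) +
        Real.log (2 ^ w))) ≤ κ * 2 ^ w * s / 3 := by
      have hlog1 : Real.log (κ * 2 ^ w * (J + 1)) = Real.log κ + w * Real.log 2 +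
          Real.log (J + 1) := by
        rw [Real.log_mul (by positivity) hJ0.ne', Real.log_mul (by positivity) (by positivity),
          Real.log_pow]
      have hlog2 : Real.log ((2 : ℝ) ^ w) = w * Real.log 2 := Real.log_pow _ _
      have hlogJ : Real.log ((J : ℝ) + 1) ≤ (n + 2) * w := by
        have := Real.log_le_sub_one_of_pos hJ0
        rw [hJR] at this ⊢
        linarith
      have hl2 : Real.log 2 ≤ 1 := by
        have := Real.log_two_lt_d9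
        linarith
      have hlκ : 0 ≤ Real.log κ := Real.log_nonneg hκR
      have h1 : 1 + Real.log (κ * 2 ^ w * (J + 1)) + Real.log (2 ^ w) ≤
          (n + 5 + Real.log κ) * (w + 2) := by
        rw [hlog1, hlog2]
        have h2 : (w : ℝ) * Real.log 2 ≤ w := mul_le_of_le_one_right hwR hl2
        have h3 := mul_nonneg hlκ hwR
        have h4 := mul_nonneg hnR hwR
        linarith
      have h2 : 3 * K * (1 + Real.log (κ * 2 ^ w * (J + 1)) + Real.log (2 ^ w)) ≤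
          κ * (w + 2) := by
        calc 3 * K * (1 + Real.log (κ * 2 ^ w * (J + 1)) + Real.log (2 ^ w))
            ≤ 3 * K * ((n + 5 + Real.log κ) * (w + 2)) :=
              mul_le_mul_of_nonneg_left h1 (by positivity)
          _ = (3 * K * (n + 5 + Real.log κ)) * (w + 2) := by ring
          _ ≤ κ * (w + 2) := mul_le_mul_of_nonneg_right hκ (by positivity)
      have h3 : κ * 2 ^ w * (J + 1) * (3 * K * (1 + Real.log (κ * 2 ^ w * (J + 1)) +
          Real.log (2 ^ w))) ≤ κ * 2 ^ w * (J + 1) * (κ * (w + 2)) :=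
        mul_le_mul_of_nonneg_left h2 (by positivity)
      have h4 : κ * 2 ^ w * (J + 1) * (κ * (w + 2)) = κ * 2 ^ w * (σ : ℝ) := by
        rw [hσR']
        ring
      have h5 : κ * 2 ^ w * (σ : ℝ) ≤ κ * 2 ^ w * s :=
        mul_le_mul_of_nonneg_left hsσ (by positivity)
      rw [h4] at h3
      have h6 : 3 * (K * (κ * 2 ^ w * (J + 1) * (1 + Real.log (κ * 2 ^ w * (J + 1)) +
        Real.log (2 ^ w)))) = κ * 2 ^ w * (J + 1) * (3 * K * (1 + Real.log (κ * 2 ^ w * (J + 1)) +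
          Real.log (2 ^ w))) := by ring
      linarith
    -- (c)
    have hc : K * (2 * D * σ * (Q : ℝ) ^ (n + 1) * (1 + Real.log (s + 2))) ≤
        κ * 2 ^ w * s / 3 := by
      have h1 : Real.log (s + 2) ≤ Real.log (σ + 2) + i := by
        have h2 : s + 2 ≤ (σ + 2) * 2 ^ i := by rw [hs']; linarith
        calc Real.log (s + 2) ≤ Real.log ((σ + 2) * 2 ^ i) :=
              Real.log_le_log (by positivity) h2
          _ = Real.log (σ + 2) + i * Real.log 2 := by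
              rw [Real.log_mul (by positivity) (by positivity), Real.log_pow]
          _ ≤ Real.log (σ + 2) + i := by
              have h9 := Real.log_two_lt_d9
              have hi : (0 : ℝ) ≤ i := Nat.cast_nonneg _
              have h10 : (i : ℝ) * Real.log 2 ≤ i := mul_le_of_le_one_right hi (by linarith)
              linarith
      have h2 : Real.log ((σ : ℝ) + 2) ≤ σ + 1 := by
        have := Real.log_le_sub_one_of_pos (by positivity : (0 : ℝ) < (σ : ℝ) + 2)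
        linarith
      have h3 : (i : ℝ) ≤ 2 ^ i := by
        have := Nat.lt_two_pow_self (n := i)
        exact_mod_cast this.le
      have h4 : 1 + Real.log (s + 2) ≤ (σ + 3) * 2 ^ i := by
        have h5 : ((σ : ℝ) + 2) * 1 ≤ (σ + 2) * 2 ^ i :=
          mul_le_mul_of_nonneg_left h2i (by linarith)
        linarith
      calc K * (2 * D * σ * (Q : ℝ) ^ (n + 1) * (1 + Real.log (s + 2)))
          ≤ K * (2 * D * σ * (Q : ℝ) ^ (n + 1) * ((σ + 3) * 2 ^ i)) := by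
            refine mul_le_mul_of_nonneg_left ?_ (by linarith)
            exact mul_le_mul_of_nonneg_left h4 (by positivity)
        _ = (6 * K * D * (Q : ℝ) ^ (n + 1) * (σ + 3)) * s / 3 := by rw [hs']; ring
        _ ≤ 2 ^ w * s / 3 := by
            have := mul_le_mul_of_nonneg_right hmain hs0.le
            linarith
        _ ≤ κ * 2 ^ w * s / 3 := by
            have : 2 ^ w * s ≤ κ * (2 ^ w * s) := le_mul_of_one_le_left (by positivity) hκR
            linarith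
    have hexp : K * (κ * 2 ^ w * (J + 1) * (1 + Real.log (κ * 2 ^ w * (J + 1)) +
        Real.log (2 ^ w)) + 2 * D * σ * (Q : ℝ) ^ (n + 1) * (1 + Real.log (s + 2)) +
        2 ^ w * s) = K * (κ * 2 ^ w * (J + 1) * (1 + Real.log (κ * 2 ^ w * (J + 1)) +
        Real.log (2 ^ w))) + K * (2 * D * σ * (Q : ℝ) ^ (n + 1) * (1 + Real.log (s + 2))) +
        K * (2 ^ w * s) := by ring
    rw [hexp]
    linarith
  · -- (2)
    rw [hL0]
    have h1 : κ * 2 ^ w * (J + 1) + 1 ≤ 2 ^ w * Q := by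
      rw [hQ]
      have : 1 ≤ 2 ^ w := Nat.one_le_two_pow
      nlinarith
    calc 2 * (κ * 2 ^ w * (J + 1) + 1) ^ (n + 1) * σ * D
        ≤ 2 * (2 ^ w * Q) ^ (n + 1) * σ * D := by gcongr
      _ = (2 ^ w) ^ (n + 1) * (2 * D * σ * Q ^ (n + 1)) := by rw [mul_pow]; ring
  · -- (3)
    exact Nat.mul_le_mul_right _ hκg
  · -- (4)
    rw [hL0]
    have h1 : 2 * D * Q ^ (n + 1) ≤ 2 ^ w := by
      have h2 : (2 * D * (Q : ℝ) ^ (n + 1)) ≤ 2 ^ w := by
        refine le_trans ?_ hmain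
        have h3 : (0 : ℝ) ≤ D * (Q : ℝ) ^ (n + 1) := by positivity
        have h4 : 2 ≤ 6 * K * (σ + 3) := by
          have := mul_le_mul hK (by linarith : (4 : ℝ) ≤ σ + 3) (by norm_num) (by linarith)
          linarith
        calc 2 * D * (Q : ℝ) ^ (n + 1) = 2 * (D * (Q : ℝ) ^ (n + 1)) := by ring
          _ ≤ (6 * K * (σ + 3)) * (D * (Q : ℝ) ^ (n + 1)) := mul_le_mul_of_nonneg_right h4 h3
          _ = _ := by ring
      exact_mod_cast h2
    calc (2 ^ w) ^ (n + 1) * (2 * D * σ * Q ^ (n + 1))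
        = (2 ^ w) ^ (n + 1) * σ * (2 * D * Q ^ (n + 1)) := by ring
      _ ≤ (2 ^ w) ^ (n + 1) * σ * 2 ^ w := Nat.mul_le_mul_left _ h1
      _ = σ * 2 ^ J := by
        rw [hJ, ← pow_mul, mul_comm ((n + 2)) w, mul_right_comm, ← pow_add, mul_comm]
        congr 2

end Pool.Agent.H59.BF.PAR
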