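import Pool.Agent.H72.BF.Targets

/-!
# ZER: the zero estimate
-/

open Polynomial Finset

namespace Pool.Agent.H59.BF.ZER

open Pool.Agent.H72.BF

/-! ### the operator `Gf` -/

theorem Gf_sum {ι : Type*} (b0 c : ℂ) (s : Finset ι) (a : ι → ℂ) (P : ι → ℂ[X]) (m : ℕ) :
    Gf b0 c (∑ i ∈ s, C (a i) * P i) m = ∑ i ∈ s, C (a i) * Gf b0 c (P i) m := by
  induction m with
  | zero => rfl
  | succ m ih =>
    change C b0 * derivative (Gf b0 c _ m) + C c * Gf b0 c _ m =
      ∑ i ∈ s, C (a i) * (C b0 * derivative (Gf b0 c (P i) m) + C c * Gf b0 c (P i) m)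
    rw [ih, derivative_sum, Finset.mul_sum, Finset.mul_sum, ← Finset.sum_add_distrib]
    refine Finset.sum_congr rfl fun i _ => ?_
    rw [derivative_C_mul]
    ring

theorem deg_C_mul (a : ℂ) (p : ℂ[X]) : (C a * p).degree ≤ p.degree := by
  calc (C a * p).degree ≤ (C a).degree + p.degree := degree_mul_le _ _
    _ ≤ 0 + p.degree := add_le_add degree_C_le le_rfl
    _ = p.degree := zero_add _

theorem Gf_degree (b0 c : ℂ) (P : ℂ[X]) (d : ℕ) (hP : P.degree < d) (m : ℕ) :
    (Gf b0 c P m).degree < d := by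
  induction m with
  | zero => exact hP
  | succ m ih =>
    change (C b0 * derivative (Gf b0 c P m) + C c * Gf b0 c P m).degree < d
    refine lt_of_le_of_lt (degree_add_le _ _) (max_lt ?_ ?_)
    · refine lt_of_le_of_lt (deg_C_mul _ _) (lt_of_le_of_lt degree_derivative_le ih)
    · exact lt_of_le_of_lt (deg_C_mul _ _) ih

/-- the zero estimate -/
theorem zer (hGRP : T_GRP) (hSEP : T_SEP) (hLAG : T_LAG) (hDEI : T_DEI) (hRLI : T_RLI)
    (hEXPU : T_EXPU) : T_ZER := by
  classical
  intro n lam hlam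
  obtain ⟨g, hg1, hg⟩ := hGRP n lam hlam
  refine ⟨g, hg1, ?_⟩
  intro h B N τ L0 S hh hb0 hN hτ hS hval p hp
  -- the polynomials
  obtain ⟨Pt, hPt⟩ : ∃ Pt : (Fin (n + 1) → Fin N) → ℂ[X], ∀ t, Pt t =
      ∑ v : Fin h × Fin (L0 + 1), C ((p (t, v) : ℤ) : ℂ) * RP h v.1 v.2 := ⟨_, fun _ => rfl⟩
  obtain ⟨tn, htn⟩ : ∃ tn : (Fin (n + 1) → Fin N) → Fin (n + 1) → ℕ, ∀ t j, tn t j = (t j : ℕ) :=
    ⟨fun t j => (t j : ℕ), fun _ _ => rfl⟩
  obtain ⟨val, hval'⟩ : ∃ val : (Fin (n + 1) → Fin N) → ℂ, ∀ t, val t =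
      Complex.exp (∑ j, (tn t j : ℂ) * lam j) := ⟨_, fun _ => rfl⟩
  set d : ℕ := h * (L0 + 1) with hd
  have hPdeg : ∀ t, (Pt t).degree < d := by
    intro t
    rw [hPt]
    refine lt_of_le_of_lt (degree_sum_le _ _) ?_
    rw [Finset.sup_lt_iff (WithBot.bot_lt_coe _)]
    rintro ⟨μ, l⟩ -
    refine lt_of_le_of_lt (deg_C_mul _ _) ?_
    refine lt_of_le_of_lt degree_le_natDegree ?_
    rw [hRLI.1 h μ l]
    have h1 : (μ : ℕ) < h := μ.2
    have h2 : (l : ℕ) ≤ L0 := Nat.lt_succ_iff.1 l.2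
    have h3 : (l : ℕ) * h ≤ L0 * h := Nat.mul_le_mul_right h h2
    have h4 : (μ : ℕ) + l * h < d := by
      rw [hd]
      calc (μ : ℕ) + l * h < h + L0 * h := by omega
        _ = h * (L0 + 1) := by ring
    exact_mod_cast h4
  -- rewriting of qq
  have hqq : ∀ (m : Fin (n + 1) → ℕ) (s : ℕ), qq lam B p m s =
      ∑ t : Fin (n + 1) → Fin N, ((Gf (B.b 0) (gam B (tn t) 0) (Pt t) (m 0)) *
        C (∏ j : Fin n, gam B (tn t) j.succ ^ m j.succ)).eval (s : ℂ) * val t ^ s := by
    intro m s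
    unfold qq
    rw [Fintype.sum_prod_type]
    refine Finset.sum_congr rfl fun t _ => ?_
    have e1 : ∀ v : Fin h × Fin (L0 + 1), tt ((t, v) : Idx n N h L0) = tn t := by
      intro v
      funext j
      rw [htn]
      rfl
    have e2 : ∏ j, Complex.exp (lam j) ^ (tn t j * s) = val t ^ s := by
      rw [hval', Complex.exp_sum, ← Finset.prod_pow]
      refine Finset.prod_congr rfl fun j _ => ?_
      rw [Complex.exp_nat_mul, pow_mul]
    rw [hPt, Gf_sum, eval_mul, eval_finsetSum, eval_C, Finset.sum_mul, Finset.sum_mul]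
    refine Finset.sum_congr rfl fun v _ => ?_
    rw [e1, e2, eval_mul, eval_C]
    unfold cf
    ring
  -- the values
  set Γ : Finset ℂ := Finset.univ.image val with hΓ
  have hΓ0 : (0 : ℂ) ∉ Γ := by
    intro h0
    obtain ⟨t, -, ht⟩ := Finset.mem_image.1 h0
    rw [hval'] at ht
    exact Complex.exp_ne_zero _ ht
  have hΓcard : Γ.card ≤ N ^ (n + 1) := by
    refine Finset.card_image_le.trans (le_of_eq ?_)
    simp
  have hcg : ∀ m : Fin (n + 1) → ℕ, (∀ j, m j ≤ τ) → ∀ g ∈ Γ,
      ∑ t ∈ Finset.univ.filter (fun t => val t = g),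
        Gf (B.b 0) (gam B (tn t) 0) (Pt t) (m 0) *
          C (∏ j : Fin n, gam B (tn t) j.succ ^ m j.succ) = 0 := by
    intro m hm
    refine hEXPU Γ (fun g => ∑ t ∈ Finset.univ.filter (fun t => val t = g),
        Gf (B.b 0) (gam B (tn t) 0) (Pt t) (m 0) *
          C (∏ j : Fin n, gam B (tn t) j.succ ^ m j.succ)) d hΓ0 ?_ ?_
    · intro g _
      refine lt_of_le_of_lt (degree_sum_le _ _) ?_
      rw [Finset.sup_lt_iff (WithBot.bot_lt_coe _)]
      intro t _
      rw [mul_comm]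
      exact lt_of_le_of_lt (deg_C_mul _ _) (Gf_degree _ _ _ _ (hPdeg t) _)
    · intro s hs
      have hs' : s < S := by
        refine lt_of_lt_of_le hs (le_trans ?_ hS)
        exact Nat.mul_le_mul_right _ hΓcard
      have h1 := hp m hm s hs'
      rw [hqq] at h1
      rw [← h1]
      rw [← Finset.sum_fiberwise_of_maps_to (s := Finset.univ) (t := Γ) (g := val)
        (fun t _ => Finset.mem_image_of_mem _ (Finset.mem_univ t))]
      refine Finset.sum_congr rfl fun g _ => ?_
      rw [eval_finsetSum, Finset.sum_mul]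
      refine Finset.sum_congr rfl fun t ht => ?_
      rw [(Finset.mem_filter.1 ht).2]
  -- all polynomials vanish
  have hP0 : ∀ t, Pt t = 0 := by
    intro t₀
    set G : Finset (Fin (n + 1) → Fin N) := Finset.univ.filter (fun t => val t = val t₀) with hG
    have h1 := hDEI n τ (B.b 0) (Fin (n + 1) → Fin N) G (fun t => gam B (tn t)) Pt (by
      intro m hm
      exact hcg m hm (val t₀) (Finset.mem_image_of_mem _ (Finset.mem_univ t₀)))
    have hexp : ∀ t ∈ G, ∀ t' ∈ G, Complex.exp (∑ j, (tn t j : ℂ) * lam j) =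
        Complex.exp (∑ j, (tn t' j : ℂ) * lam j) := by
      intro t ht t' ht'
      rw [← hval', ← hval', (Finset.mem_filter.1 ht).2, (Finset.mem_filter.1 ht').2]
    have htninj : Function.Injective tn := by
      intro t t' h2
      funext j
      have := congrFun h2 j
      rw [htn, htn] at this
      exact Fin.ext this
    have hcard : G.card ≤ τ + 1 := by
      have h2 := hg N (G.image tn) hN (by
        intro t ht j
        obtain ⟨t', -, rfl⟩ := Finset.mem_image.1 ht
        rw [htn]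
        exact (t' j).2) (by
        intro t ht t' ht'
        obtain ⟨u, hu, rfl⟩ := Finset.mem_image.1 ht
        obtain ⟨u', hu', rfl⟩ := Finset.mem_image.1 ht'
        exact hexp u hu u' hu')
      rw [Finset.card_image_of_injective _ htninj] at h2
      omega
    refine hLAG n τ (Fin (n + 1) → Fin N) G (fun t => gam B (tn t)) Pt hcard ?_ h1 t₀
      (Finset.mem_filter.2 ⟨Finset.mem_univ _, rfl⟩)
    intro t ht t' ht' hgam
    by_contra hne
    have h3 := hSEP n lam hlam B hb0 N (tn t) (tn t') hN (fun j => by rw [htn]; exact (t j).2)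
      (fun j => by rw [htn]; exact (t' j).2) (hexp t ht t' ht') hgam
      (fun h4 => hne (htninj h4))
    linarith
  funext ⟨t, v⟩
  have h1 := hRLI.2 h L0 (fun v => p (t, v)) (by
    have := hP0 t
    rw [hPt] at this
    exact this)
  exact congrFun h1 v

end Pool.Agent.H59.BF.ZER
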